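import Pool.Agent.Helper84.OV.Zero

set_option autoImplicit false

namespace Pool.Agent.Helper72.OV.MUL

open Pool.Agent.Helper84.OV

theorem aux (G : R2) (hG : 1 ≤ G.natDegree) : ∀ (N : ℕ) (A : Fin 3 → R2), A ≠ 0 →
    (A 0).natDegree + (A 1).natDegree + (A 2).natDegree ≤ N →
    ∃ (m : ℕ) (B : Fin 3 → R2), (∀ i, A i = G ^ m * B i) ∧ ∃ i, ¬ G ∣ B i := by
  intro N
  induction N using Nat.strong_induction_on with
  | _ N ih =>
    intro A hA hN
    by_cases h : ∃ i, ¬ G ∣ A i
    · exact ⟨0, A, fun i => by simp, h⟩
    · have h' : ∀ i, G ∣ A i := fun i => by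
        by_contra hi
        exact h ⟨i, hi⟩
      choose C hC using h'
      have hG0 : G ≠ 0 := by
        rintro rfl
        simp at hG
      have hdeg : ∀ i, C i ≠ 0 → (A i).natDegree = G.natDegree + (C i).natDegree := by
        intro i hi
        rw [hC i, Polynomial.natDegree_mul hG0 hi]
      have hdeg' : ∀ i, (C i).natDegree ≤ (A i).natDegree := by
        intro i
        by_cases hi : C i = 0
        · rw [hi]; simp
        · rw [hdeg i hi]; omega
      have hC0 : C ≠ 0 := by
        rintro rfl
        apply hA
        funext i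
        rw [hC i]; simp
      obtain ⟨i, hi⟩ := Function.ne_iff.1 hC0
      have hi' : C i ≠ 0 := by simpa using hi
      have h1 := hdeg i hi'
      have h0 := hdeg' 0
      have h11 := hdeg' 1
      have h2 := hdeg' 2
      have hlt : (C 0).natDegree + (C 1).natDegree + (C 2).natDegree < N := by
        fin_cases i
        · simp only [Fin.zero_eta] at h1
          omega
        · simp only [Fin.mk_one] at h1
          omega
        · simp only [Fin.reduceFinMk] at h1
          omega
      obtain ⟨m, B, hB, hex⟩ := ih _ hlt C hC0 le_rfl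
      refine ⟨m + 1, B, fun i => ?_, hex⟩
      rw [hC i, hB i]
      ring

theorem t : S_MUL := fun G A hG hA => aux G hG _ A hA le_rfl

end Pool.Agent.Helper72.OV.MUL
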